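import Pool.Agent.H547R9.Asm
import Pool.Agent.H547R7.T_CHE
import Pool.Agent.H547R7.T_SLI
import Pool.Agent.H547R7.T_THR
import Pool.Agent.H547R7.T_TST
import Pool.Agent.H547R8.T_CKT
import Pool.Agent.H547R8.T_CLS
import Pool.Agent.H547R8.T_LAY
import Pool.Agent.H547R8.T_MJC
import Pool.Agent.H547R8.T_S2C
import Pool.Agent.H547R9.T_AMC
import Pool.Agent.H547R9.T_BPC
import Pool.Agent.H547R9.T_HJC
import Pool.Agent.H547R9.T_MAC
import Pool.Agent.H547R9.T_MID
import Pool.Agent.H547R9.T_MOC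
import Pool.Agent.H547R9.T_MON
import Pool.Agent.H547R9.T_MSC
import Pool.Agent.H547R9.T_MSD
import Pool.Agent.H547R9.T_MUP
import Pool.Agent.H547R9.T_NAM
import Pool.Agent.H547R9.T_NBP
import Pool.Agent.H547R9.T_NMA
import Pool.Agent.H547R9.T_PA1
import Pool.Agent.H547R9.T_PA2
import Pool.Agent.H547R9.T_PA3
import Pool.Agent.H547R9.T_PSB
import Pool.Agent.H547R9.T_REN
import Pool.Agent.H547R9.T_SDC
import Pool.Agent.H547R9.T_TMO
import Pool.Agent.H547R9.T_TRE
import Pool.Agent.H547R9.T_VAM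
import Pool.Agent.H547R9.T_VMA

/-!
# Merlin-Arthur and Arthur-Merlin games over sets of Boolean functions: P, BPP or everything

`MAover B` and `AMover B` are the classes of the languages with Merlin-Arthur, respectively
Arthur-Merlin games, with any constant gap, in which Arthur's final predicate on his random string
and Merlin's message has, for every input, circuits of polynomial size with gates from `B`.
-/

set_option autoImplicit false

namespace Pool.Agent.Results.MP_ff3ed7_lc.GateSetTrichotomy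

open Pool.Agent.NPC Pool.Agent.H547R6 Pool.Agent.H547R7 Pool.Agent.H547R8 Pool.Agent.H547R9

/-- **Trichotomy for MA and AM over gate sets.** -/
theorem result (B : Set BFun) :
    ((B ⊆ Aff ∨ B ⊆ Conj ∨ B ⊆ Disj) → MAover B = P ∧ AMover B = P) ∧
    (B ⊆ Mon → ¬ B ⊆ Conj → ¬ B ⊆ Disj → MAover B = BPP ∧ AMover B = BPP) ∧
    (¬ B ⊆ Mon → ¬ B ⊆ Aff → MAover B = MA ∧ AMover B = AM) := by
  have hsli : S_SLI := t_SLI t_THR
  exact main_of (t_CKT t_LAY) t_REN t_VAM t_VMA t_TRE t_NAM t_NMA t_NBP t_S2C t_SDC t_HJC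
    (t_MON t_MID t_CHE) (t_MOC t_REN (t_TST t_THR hsli)) t_TMO t_MSC t_MSD t_MJC (t_AMC t_CHE)
    (t_MAC t_CHE) (t_MUP t_CLS (t_BPC t_CHE)) (t_PA1 t_CLS) (t_PA2 t_CLS) (t_PA3 t_CLS) t_PSB B

end Pool.Agent.Results.MP_ff3ed7_lc.GateSetTrichotomy
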