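import Pool.Agent.H752.GM.Final
import Pool.Agent.H503R2.GM.Ma
import Pool.Agent.H640R2.GM.Stage
import Pool.Agent.H64R2.GM.Mark
import Pool.Agent.H64R2.GM.Vote
import Pool.Agent.H674R2.GM.Seq
import Pool.Agent.H847.GM.M8
import Pool.Agent.H431R2.GM.Adv
import Pool.Agent.H55R2.GM.Sampler
import Pool.Agent.H797R2.GM.NullAM
import Pool.Agent.H227R2.GM.Incl
import Pool.Agent.H692R2.GM.Ammod

/-!
# How many oracles make `MA` and `AM` different?

For every gauge `f`, the set of the oracles `A` with `AM ⊄ MA` relative to `A` is a null set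
for `f` if and only if, for some constant `C`, for all large `N` there is `N' ≥ N` with
`f N' ≤ (log N) ^ C`. The same holds for every set of oracles between this one and the set of the
oracles with `AM ⊄ NP`.
-/

namespace Pool.Agent.Results.MP_ff3ed7_lc.GaugeThreshold

open Pool.Agent.NPC Pool.Agent.H620R2.Gauge Pool.Agent.H752.GM Filter

theorem result (f : ℕ → ℝ) :
    (Null f {A : Oracle | ∃ L, IsAM A L ∧ ¬ IsMA A L} ↔
      ∃ C : ℕ, ∀ᶠ N : ℕ in atTop, ∃ N' ≥ N, f N' ≤ (Real.logb 2 N) ^ C) ∧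
    ∀ O : Set Oracle, {A : Oracle | ∃ L, IsAM A L ∧ ¬ IsMA A L} ⊆ O →
      O ⊆ {A : Oracle | ∃ L, IsAM A L ∧ ¬ IsNP A L} →
      (Null f O ↔ ∃ C : ℕ, ∀ᶠ N : ℕ in atTop, ∃ N' ≥ N, f N' ≤ (Real.logb 2 N) ^ C) := by
  have h : St_ma := t_ma t_stage t_mark t_seq t_ammem (t_ammod t_adv)
  have hn : St_nullAM := t_nullAM t_vote t_sampler
  exact ⟨final_ma h hn f _ subset_rfl (ma_sub t_incl), fun O h1 h2 => final_ma h hn f O h1 h2⟩

end Pool.Agent.Results.MP_ff3ed7_lc.GaugeThreshold
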