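import Pool.Agent.H657R2.MAAM.Final

namespace Pool.Agent.Results.MP_ff3ed7_lc.TotalCommunication

open H657R2.MAAM in
theorem result : ∃ C : ℕ, ∀ n : ℕ, 2 ≤ n → ∃ F G₁ G₂ : Str n → Str n → Bool,
    AM F (C * Nat.log 2 n ^ C) ∧
    NP G₁ (C * Nat.log 2 n ^ C) ∧ NP G₂ (C * Nat.log 2 n ^ C) ∧
    (∀ x y, F x y = (G₁ x y || !G₂ x y)) ∧
    ∀ c, (MA F c ∨ SBP F c) → n ≤ C * (c + 1) ^ C :=
  H657R2.MAAM.Final.main

end Pool.Agent.Results.MP_ff3ed7_lc.TotalCommunication
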